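import Pool.Agent.Q240.EX.Stm
import Pool.Agent.Q280.CD2.Ext

/-!
# Project EX of helper240: job Kern (the evaluation at a negative point bounds the evaluation on a disc)
-/

set_option autoImplicit false

open Polynomial Filter Topology Finset MeasureTheory
open Pool.Agent.Q240.CD

namespace Pool.Agent.Q261.EX

open Pool.Agent.Q280.CD2 (gpos summable_eval lam_add lam_C_mul lam_nonneg deg_mul)

variable {g M : ℕ → ℝ} {n : ℕ}

/-- `P` is the monic orthogonal polynomial of degree `l` -/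
def Or (g M : ℕ → ℝ) (l : ℕ) (P : ℝ[X]) : Prop :=
  P.Monic ∧ P.natDegree = l ∧ ∀ r : ℝ[X], r.natDegree < l → Lam g M (P * r) = 0

theorem lam_zero : Lam g M 0 = 0 := by simp [Lam]

/-- Bessel: a subspace spanned by the orthogonal polynomials of degree less than `m`. -/
theorem expand (h : PM g M n) (P : ℕ → ℝ[X]) (m : ℕ) (hm : m ≤ n) (hP : ∀ l, l ≤ m → Or g M l (P l)) :
    ∀ d, d ≤ m → ∀ q : ℝ[X], q.natDegree ≤ d → ∃ a : ℝ, ∃ s : ℝ[X], q = C a * P d + s ∧ (d = 0 → s = 0) ∧
      (0 < d → s.natDegree < d) := by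
  intro d hd q hq
  obtain ⟨h1, h2, h3⟩ := hP d hd
  refine ⟨q.coeff d, q - C (q.coeff d) * P d, by ring, ?_, ?_⟩
  · intro h0
    subst h0
    have h4 : P 0 = 1 := eq_one_of_monic_natDegree_zero h1 h2
    rw [h4, mul_one, ← eq_C_of_natDegree_le_zero hq, sub_self]
  · intro h0
    have h5 : (q - C (q.coeff d) * P d).natDegree ≤ d - 1 := by
      rw [natDegree_le_iff_coeff_eq_zero]
      intro N hN
      rcases eq_or_lt_of_le (show d ≤ N by omega) with h6 | h6
      · rw [← h6, coeff_sub, coeff_C_mul]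
        have h7 : (P d).coeff d = 1 := by
          have := h1.coeff_natDegree
          rwa [h2] at this
        rw [h7, mul_one, sub_self]
      · have e1 : q.coeff N = 0 := coeff_eq_zero_of_natDegree_lt (by omega)
        have e2 : (P d).coeff N = 0 := coeff_eq_zero_of_natDegree_lt (by omega)
        rw [coeff_sub, coeff_C_mul, e1, e2, mul_zero, sub_zero]
    omega

/-- orthogonality for all polynomials of lower degree, from the one for the lower orthogonal polynomials -/
theorem exist (h : PM g M n) : ∀ m, m ≤ n → ∃ P : ℕ → ℝ[X], ∀ l, l ≤ m → Or g M l (P l) := by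
  intro m
  induction m with
  | zero =>
    intro _
    refine ⟨fun _ => 1, fun l hl => ?_⟩
    have h0 : l = 0 := by omega
    subst h0
    exact ⟨monic_one, natDegree_one, fun r hr => absurd hr (Nat.not_lt_zero _)⟩
  | succ m ih =>
    intro hm
    obtain ⟨P, hP⟩ := ih (by omega)
    have hpos : ∀ l, l ≤ m → 0 < Lam g M (P l * P l) := fun l hl =>
      h.dfn _ (by rw [(hP l hl).2.1]; omega) (hP l hl).1.ne_zero
    -- project `X^(m+1)`
    have key : ∀ d, d ≤ m + 1 → ∃ s : ℝ[X], s.natDegree ≤ m ∧ ∀ r : ℝ[X], r.natDegree < d →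
        Lam g M ((X ^ (m + 1) - s) * r) = 0 := by
      intro d
      induction d with
      | zero => exact fun _ => ⟨0, by simp, fun r hr => absurd hr (Nat.not_lt_zero _)⟩
      | succ d ihd =>
        intro hd
        obtain ⟨s, hs, hs'⟩ := ihd (by omega)
        have hdm : d ≤ m := by omega
        set b : ℝ := Lam g M ((X ^ (m + 1) - s) * P d) / Lam g M (P d * P d) with hb
        have hPd := (hP d hdm).2.1
        have hdeg0 : (X ^ (m + 1) - s).natDegree ≤ n :=
          (natDegree_sub_le _ _).trans (max_le (by rw [natDegree_X_pow]; exact hm) (by omega))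
        have hspl : ∀ r : ℝ[X], r.natDegree ≤ n → Lam g M ((X ^ (m + 1) - (s + C b * P d)) * r) =
            Lam g M ((X ^ (m + 1) - s) * r) - b * Lam g M (P d * r) := by
          intro r hr
          have h1 : (X ^ (m + 1) - (s + C b * P d)) * r = (X ^ (m + 1) - s) * r + C (-b) * (P d * r) := by
            rw [map_neg]; ring
          rw [h1, lam_add h _ _ (deg_mul hdeg0 hr)
            ((natDegree_C_mul_le _ _).trans (deg_mul (by rw [hPd]; omega) hr)), lam_C_mul]
          ring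
        refine ⟨s + C b * P d, (natDegree_add_le _ _).trans (max_le hs
          ((natDegree_C_mul_le _ _).trans (by rw [hPd]; omega))), fun r hr => ?_⟩
        obtain ⟨a, t, hqt, ht0, ht1⟩ := expand h P m (by omega) hP d hdm r (by omega)
        have htn : t.natDegree ≤ n := by
          rcases Nat.eq_zero_or_pos d with h0 | h0
          · rw [ht0 h0, natDegree_zero]; omega
          · have := ht1 h0; omega
        have hPt : Lam g M (P d * t) = 0 := by
          rcases Nat.eq_zero_or_pos d with h0 | h0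
          · rw [ht0 h0, mul_zero, lam_zero]
          · exact (hP d hdm).2.2 t (ht1 h0)
        have hst : Lam g M ((X ^ (m + 1) - s) * t) = 0 := by
          rcases Nat.eq_zero_or_pos d with h0 | h0
          · rw [ht0 h0, mul_zero, lam_zero]
          · exact hs' t (ht1 h0)
        have h2 : Lam g M ((X ^ (m + 1) - (s + C b * P d)) * t) = 0 := by
          rw [hspl t htn, hst, hPt]; ring
        have h3 : Lam g M ((X ^ (m + 1) - (s + C b * P d)) * P d) = 0 := by
          rw [hspl (P d) (by rw [hPd]; omega), hb, div_mul_cancel₀ _ (hpos d hdm).ne', sub_self]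
        have hdeg1 : (X ^ (m + 1) - (s + C b * P d)).natDegree ≤ n :=
          (natDegree_sub_le _ _).trans (max_le (by rw [natDegree_X_pow]; exact hm)
            ((natDegree_add_le _ _).trans (max_le (by omega)
              ((natDegree_C_mul_le _ _).trans (by rw [hPd]; omega)))))
        have h4 : (X ^ (m + 1) - (s + C b * P d)) * r =
            C a * ((X ^ (m + 1) - (s + C b * P d)) * P d) + (X ^ (m + 1) - (s + C b * P d)) * t := by
          rw [hqt]; ring
        rw [h4, lam_add h _ _ ((natDegree_C_mul_le _ _).trans (deg_mul hdeg1 (by rw [hPd]; omega)))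
          (deg_mul hdeg1 htn), lam_C_mul, h3, h2]
        ring
    obtain ⟨s, hs, hs'⟩ := key (m + 1) le_rfl
    refine ⟨fun l => if l = m + 1 then X ^ (m + 1) - s else P l, fun l hl => ?_⟩
    change Or g M l (if l = m + 1 then X ^ (m + 1) - s else P l)
    rcases eq_or_lt_of_le hl with h1 | h1
    · rw [if_pos h1, h1]
      have h5 : s.degree < ((m + 1 : ℕ) : WithBot ℕ) :=
        (degree_le_of_natDegree_le hs).trans_lt (by exact_mod_cast Nat.lt_succ_self m)
      refine ⟨monic_X_pow_sub (n := m + 1) (by exact_mod_cast h5), ?_, fun r hr => hs' r hr⟩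
      rw [natDegree_sub_eq_left_of_natDegree_lt (by rw [natDegree_X_pow]; omega), natDegree_X_pow]
    · rw [if_neg (by omega)]
      exact hP l (by omega)

/-- no positive factor -/
theorem nofac (h : PM g M n) {l : ℕ} {P : ℝ[X]} (hP : Or g M l P) (hl : l ≤ n) {u T : ℝ[X]}
    (hu : P = u * T) (hu1 : 1 ≤ u.natDegree) (hup : ∀ j, 0 < u.eval (g j)) : False := by
  obtain ⟨hm, hd, ho⟩ := hP
  have hP0 : P ≠ 0 := hm.ne_zero
  have hu0 : u ≠ 0 := fun h0 => hP0 (by rw [hu, h0, zero_mul])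
  have hT0 : T ≠ 0 := fun h0 => hP0 (by rw [hu, h0, mul_zero])
  have hdT : u.natDegree + T.natDegree = l := by rw [← hd, hu, natDegree_mul hu0 hT0]
  have h1 := ho T (by omega)
  have hs : Summable fun j => M j * (P * T).eval (g j) :=
    summable_eval h _ (deg_mul (by omega) (by omega))
  have hnn : ∀ j, 0 ≤ M j * (P * T).eval (g j) := fun j => by
    rw [hu, eval_mul, eval_mul]
    have := h.nonneg j
    have h2 := (hup j).le
    have h3 : (0 : ℝ) ≤ T.eval (g j) * T.eval (g j) := mul_self_nonneg _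
    have h4 : M j * (eval (g j) u * eval (g j) T * eval (g j) T) =
        M j * (eval (g j) u * (eval (g j) T * eval (g j) T)) := by ring
    rw [h4]
    positivity
  have hz : ∀ j, M j * (P * T).eval (g j) = 0 := by
    have h2 : HasSum (fun j => M j * (P * T).eval (g j)) 0 := by
      have h3 := hs.hasSum
      have h4 : (∑' j, M j * (P * T).eval (g j)) = 0 := h1
      rwa [h4] at h3
    exact fun j => congrFun ((hasSum_zero_iff_of_nonneg hnn).1 h2) j
  have hz' : ∀ j, M j * (T * T).eval (g j) = 0 := fun j => by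
    have h2 := hz j
    rw [hu, eval_mul, eval_mul] at h2
    rw [eval_mul]
    rcases mul_eq_zero.1 h2 with h3 | h3
    · rw [h3, zero_mul]
    · rcases mul_eq_zero.1 h3 with h4 | h4
      · rcases mul_eq_zero.1 h4 with h5 | h5
        · exact absurd h5 (hup j).ne'
        · rw [h5]; ring
      · rw [h4]; ring
  have h5 := h.dfn T (by omega) hT0
  have h6 : Lam g M (T * T) = 0 := by
    unfold Lam
    rw [tsum_congr hz', tsum_zero]
  exact h5.ne' h6

/-- all zeros are real and positive -/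
theorem roots (h : PM g M n) {l : ℕ} {P : ℝ[X]} (hP : Or g M l P) (hl : l ≤ n) {w : ℂ} (hw : aeval w P = 0) :
    ∃ c : ℝ, 0 < c ∧ w = c := by
  by_cases him : w.im = 0
  · have hwr : w = ((w.re : ℝ) : ℂ) := Complex.ext rfl (by simp [him])
    refine ⟨w.re, ?_, hwr⟩
    by_contra hneg
    push Not at hneg
    have h1 : P.eval w.re = 0 := by
      rw [hwr] at hw
      have h2 : aeval ((w.re : ℝ) : ℂ) P = ((P.eval w.re : ℝ) : ℂ) := by
        have := aeval_algebraMap_apply ℂ w.re P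
        simpa using this
      rw [h2] at hw
      exact_mod_cast hw
    obtain ⟨T, hT⟩ := dvd_iff_isRoot.2 h1
    refine nofac h hP hl hT (by rw [natDegree_X_sub_C]) fun j => ?_
    rw [eval_sub, eval_X, eval_C]
    have := gpos h j
    linarith
  · exfalso
    obtain ⟨T, hT⟩ := P.quadratic_dvd_of_aeval_eq_zero_im_ne_zero hw him
    refine nofac h hP hl hT ?_ fun j => ?_
    · have h1 : (X ^ 2 - C (2 * w.re) * X + C (‖w‖ ^ 2) : ℝ[X]) = C 1 * X ^ 2 + C (-(2 * w.re)) * X + C (‖w‖ ^ 2) := by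
        rw [map_neg, C_1]; ring
      rw [h1, natDegree_quadratic one_ne_zero]
      norm_num
    · have h1 : (X ^ 2 - C (2 * w.re) * X + C (‖w‖ ^ 2) : ℝ[X]).eval (g j) = (g j - w.re) ^ 2 + w.im ^ 2 := by
        simp only [eval_add, eval_sub, eval_mul, eval_pow, eval_X, eval_C]
        rw [Complex.sq_norm, Complex.normSq_apply]
        ring
      rw [h1]
      have : 0 < w.im ^ 2 := by positivity
      positivity

/-- the value on the disc is at most the value at the negative point -/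
theorem disc (h : PM g M n) {l : ℕ} {P : ℝ[X]} (hP : Or g M l P) (hl : l ≤ n) {τ : ℝ} {z : ℂ} (hz : ‖z‖ ≤ τ) :
    ‖aeval z P‖ ≤ |P.eval (-τ)| := by
  have hτ : 0 ≤ τ := (norm_nonneg z).trans hz
  have hsp : (P.map (algebraMap ℝ ℂ)).Splits := IsAlgClosed.splits _
  have h2 : |P.eval (-τ)| = ‖aeval ((-τ : ℝ) : ℂ) P‖ := by
    have h3 : aeval ((-τ : ℝ) : ℂ) P = ((P.eval (-τ) : ℝ) : ℂ) := by
      have := aeval_algebraMap_apply ℂ (-τ) P
      simpa using this
    rw [h3, Complex.norm_real, Real.norm_eq_abs]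
  rw [h2, hsp.aeval_eq_prod_aroots_of_monic hP.1, hsp.aeval_eq_prod_aroots_of_monic hP.1]
  have h4 : ∀ w ∈ P.aroots ℂ, ‖z - w‖ ≤ ‖((-τ : ℝ) : ℂ) - w‖ := by
    intro w hw
    have hw0 : aeval w P = 0 := (mem_aroots.1 hw).2
    obtain ⟨c, hc, rfl⟩ := roots h hP hl hw0
    have h5 : ‖((-τ : ℝ) : ℂ) - (c : ℂ)‖ = τ + c := by
      rw [← Complex.ofReal_sub, Complex.norm_real, Real.norm_eq_abs, abs_of_nonpos (by linarith)]
      ring
    rw [h5]
    calc ‖z - (c : ℂ)‖ ≤ ‖z‖ + ‖(c : ℂ)‖ := norm_sub_le _ _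
      _ ≤ τ + c := by
        rw [Complex.norm_real, Real.norm_eq_abs, abs_of_pos hc]
        linarith
  have h6 : ∀ s : Multiset ℂ, (∀ w ∈ s, ‖z - w‖ ≤ ‖((-τ : ℝ) : ℂ) - w‖) →
      ‖(s.map (z - ·)).prod‖ ≤ ‖(s.map (((-τ : ℝ) : ℂ) - ·)).prod‖ := by
    intro s
    induction s using Multiset.induction_on with
    | empty => intro _; simp
    | cons a s ih =>
      intro hs
      rw [Multiset.map_cons, Multiset.map_cons, Multiset.prod_cons, Multiset.prod_cons, norm_mul, norm_mul]
      exact mul_le_mul (hs a (Multiset.mem_cons_self a s)) (ih fun w hw => hs w (Multiset.mem_cons_of_mem hw))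
        (norm_nonneg _) (norm_nonneg _)
  exact h6 _ h4

/-- the kernel on the diagonal -/
noncomputable def SS (g M : ℕ → ℝ) (P : ℕ → ℝ[X]) (d : ℕ) (z : ℂ) : ℝ :=
  ∑ l ∈ range (d + 1), ‖aeval z (P l)‖ ^ 2 / Lam g M (P l * P l)

theorem cs2 {A B : ℝ} {L₁ L₂ S₁ S₂ : ℝ} (h1 : A ^ 2 ≤ L₁ * S₁) (h2 : B ^ 2 ≤ L₂ * S₂)
    (hL₁ : 0 ≤ L₁) (hL₂ : 0 ≤ L₂) (hS₁ : 0 ≤ S₁) (hS₂ : 0 ≤ S₂) :
    (A + B) ^ 2 ≤ (L₁ + L₂) * (S₁ + S₂) := by
  have h3 : A * B ≤ (L₁ * S₂ + L₂ * S₁) / 2 := by
    have h4 : (A * B) ^ 2 ≤ ((L₁ * S₂ + L₂ * S₁) / 2) ^ 2 := by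
      have h5 : (A * B) ^ 2 ≤ (L₁ * S₁) * (L₂ * S₂) := by
        rw [mul_pow]
        exact mul_le_mul h1 h2 (sq_nonneg _) (by positivity)
      have h6 : (L₁ * S₁) * (L₂ * S₂) ≤ ((L₁ * S₂ + L₂ * S₁) / 2) ^ 2 := by
        nlinarith [sq_nonneg (L₁ * S₂ - L₂ * S₁)]
      exact h5.trans h6
    exact le_of_sq_le_sq h4 (by positivity)
  nlinarith

/-- Bessel and Cauchy, Schwarz -/
theorem upper (h : PM g M n) (P : ℕ → ℝ[X]) (hP : ∀ l, l ≤ n → Or g M l (P l)) :
    ∀ d, d ≤ n → ∀ q : ℝ[X], q.natDegree ≤ d → ∀ z : ℂ,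
      ‖aeval z q‖ ^ 2 ≤ Lam g M (q * q) * SS g M P d z := by
  have hpos : ∀ l, l ≤ n → 0 < Lam g M (P l * P l) := fun l hl =>
    h.dfn _ (by rw [(hP l hl).2.1]; exact hl) (hP l hl).1.ne_zero
  intro d
  induction d with
  | zero =>
    intro _ q hq z
    obtain ⟨a, s, hqs, hs0, -⟩ := expand h P n le_rfl hP 0 (Nat.zero_le _) q hq
    rw [hs0 rfl, add_zero] at hqs
    have h1 : Lam g M (q * q) = a ^ 2 * Lam g M (P 0 * P 0) := by
      rw [hqs, show C a * P 0 * (C a * P 0) = C a * (C a * (P 0 * P 0)) by ring, lam_C_mul, lam_C_mul]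
      ring
    have h2 := hpos 0 (Nat.zero_le _)
    unfold SS
    rw [zero_add, sum_range_one, h1, hqs, map_mul, norm_mul, aeval_C]
    have h3 : ‖(algebraMap ℝ ℂ) a‖ = |a| := by simp
    rw [h3, mul_pow, sq_abs]
    apply le_of_eq
    field_simp
  | succ d ih =>
    intro hd q hq z
    obtain ⟨a, s, hqs, -, hs1⟩ := expand h P n le_rfl hP (d + 1) hd q hq
    have hsd := hs1 (Nat.succ_pos d)
    have h2 := hpos (d + 1) hd
    have hPd := (hP (d + 1) hd).2.1
    have hor : Lam g M (P (d + 1) * s) = 0 := (hP (d + 1) hd).2.2 s hsd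
    have h1 : Lam g M (q * q) = a ^ 2 * Lam g M (P (d + 1) * P (d + 1)) + Lam g M (s * s) := by
      have h4 : q * q = C (a ^ 2) * (P (d + 1) * P (d + 1)) + (C (2 * a) * (P (d + 1) * s) + s * s) := by
        rw [hqs, C_mul, C_pow, show (C (2 : ℝ) : ℝ[X]) = 2 from rfl]; ring
      have hPn : (P (d + 1)).natDegree ≤ n := by rw [hPd]; exact hd
      have hsn : s.natDegree ≤ n := by omega
      have h5 : (C (2 * a) * (P (d + 1) * s)).natDegree ≤ 2 * n := (natDegree_C_mul_le _ _).trans (deg_mul hPn hsn)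
      rw [h4, lam_add h _ _ ((natDegree_C_mul_le _ _).trans (deg_mul hPn hPn))
        ((natDegree_add_le _ _).trans (max_le h5 (deg_mul hsn hsn))), lam_add h _ _ h5 (deg_mul hsn hsn),
        lam_C_mul, lam_C_mul, hor]
      ring
    have h3 := ih (by omega) s (by omega) z
    have h4 : SS g M P (d + 1) z = ‖aeval z (P (d + 1))‖ ^ 2 / Lam g M (P (d + 1) * P (d + 1)) + SS g M P d z := by
      unfold SS
      rw [sum_range_succ _ (d + 1), add_comm]
    have h5 : ‖aeval z q‖ ≤ |a| * ‖aeval z (P (d + 1))‖ + ‖aeval z s‖ := by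
      rw [hqs, map_add, map_mul, aeval_C]
      refine (norm_add_le _ _).trans (le_of_eq ?_)
      rw [norm_mul]
      have h6 : ‖(algebraMap ℝ ℂ) a‖ = |a| := by simp
      rw [h6]
    have hS : 0 ≤ SS g M P d z := sum_nonneg fun l hl => div_nonneg (sq_nonneg _)
      (lam_nonneg h _)
    rw [h1, h4]
    refine (pow_le_pow_left₀ (norm_nonneg _) h5 2).trans ?_
    refine cs2 ?_ h3 (by positivity) (lam_nonneg h _) (by positivity) hS
    rw [mul_pow, sq_abs]
    apply le_of_eq
    field_simp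

/-- the reproducing polynomial at a real point -/
theorem repro (h : PM g M n) (P : ℕ → ℝ[X]) (hP : ∀ l, l ≤ n → Or g M l (P l)) (t : ℝ) :
    ∀ d, d ≤ n → ∃ q : ℝ[X], q.natDegree ≤ d ∧ q.eval t = SS g M P d (t : ℂ) ∧ Lam g M (q * q) = SS g M P d (t : ℂ) := by
  have hpos : ∀ l, l ≤ n → 0 < Lam g M (P l * P l) := fun l hl =>
    h.dfn _ (by rw [(hP l hl).2.1]; exact hl) (hP l hl).1.ne_zero
  have hre : ∀ q : ℝ[X], ‖aeval (t : ℂ) q‖ ^ 2 = q.eval t ^ 2 := fun q => by
    have h3 : aeval (t : ℂ) q = ((q.eval t : ℝ) : ℂ) := by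
      have := aeval_algebraMap_apply ℂ t q
      simpa using this
    rw [h3, Complex.norm_real, Real.norm_eq_abs, sq_abs]
  intro d
  induction d with
  | zero =>
    intro _
    have h2 := hpos 0 (Nat.zero_le _)
    refine ⟨C ((P 0).eval t / Lam g M (P 0 * P 0)) * P 0, ?_, ?_, ?_⟩
    · exact (natDegree_C_mul_le _ _).trans (hP 0 (Nat.zero_le _)).2.1.le
    · unfold SS
      rw [zero_add, sum_range_one, eval_mul, eval_C, hre]
      ring
    · unfold SS
      rw [zero_add, sum_range_one, hre, show ∀ c : ℝ, C c * P 0 * (C c * P 0) = C c * (C c * (P 0 * P 0)) from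
        fun c => by ring, lam_C_mul, lam_C_mul]
      field_simp
  | succ d ih =>
    intro hd
    obtain ⟨q, hq1, hq2, hq3⟩ := ih (by omega)
    have h2 := hpos (d + 1) hd
    have hPd := (hP (d + 1) hd).2.1
    have hPn : (P (d + 1)).natDegree ≤ n := by rw [hPd]; exact hd
    have hqn : q.natDegree ≤ n := by omega
    have hor : Lam g M (P (d + 1) * q) = 0 := (hP (d + 1) hd).2.2 q (by omega)
    have h4 : SS g M P (d + 1) (t : ℂ) = SS g M P d (t : ℂ) + (P (d + 1)).eval t ^ 2 / Lam g M (P (d + 1) * P (d + 1)) := by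
      unfold SS
      rw [sum_range_succ _ (d + 1), hre]
    set b : ℝ := (P (d + 1)).eval t / Lam g M (P (d + 1) * P (d + 1)) with hb
    refine ⟨q + C b * P (d + 1), ?_, ?_, ?_⟩
    · exact (natDegree_add_le _ _).trans (max_le (by omega) ((natDegree_C_mul_le _ _).trans hPd.le))
    · rw [eval_add, eval_mul, eval_C, hq2, h4, hb]
      ring
    · have h5 : (q + C b * P (d + 1)) * (q + C b * P (d + 1)) =
          q * q + (C (2 * b) * (P (d + 1) * q) + C (b ^ 2) * (P (d + 1) * P (d + 1))) := by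
        rw [C_mul, C_pow, show (C (2 : ℝ) : ℝ[X]) = 2 from rfl]; ring
      have h6 : (C (2 * b) * (P (d + 1) * q)).natDegree ≤ 2 * n := (natDegree_C_mul_le _ _).trans (deg_mul hPn hqn)
      have h7 : (C (b ^ 2) * (P (d + 1) * P (d + 1))).natDegree ≤ 2 * n :=
        (natDegree_C_mul_le _ _).trans (deg_mul hPn hPn)
      rw [h5, lam_add h _ _ (deg_mul hqn hqn) ((natDegree_add_le _ _).trans (max_le h6 h7)), lam_add h _ _ h6 h7,
        lam_C_mul, lam_C_mul, hor, hq3, h4, hb]
      field_simp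
      ring

/-- JOB Kern. -/
theorem kern : Pool.Agent.Q240.EX.S_Kern := by
  intro g M n h K τ hτ hK q z hq hz
  obtain ⟨P, hP⟩ := exist h n le_rfl
  have hpos : ∀ l, l ≤ n → 0 < Lam g M (P l * P l) := fun l hl =>
    h.dfn _ (by rw [(hP l hl).2.1]; exact hl) (hP l hl).1.ne_zero
  have h1 := upper h P hP n le_rfl q hq z
  have h2 : SS g M P n z ≤ SS g M P n ((-τ : ℝ) : ℂ) := by
    refine sum_le_sum fun l hl => ?_
    have hl' : l ≤ n := by have := mem_range.1 hl; omega
    refine div_le_div_of_nonneg_right ?_ (hpos l hl').le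
    have h3 : ‖aeval ((-τ : ℝ) : ℂ) (P l)‖ = |(P l).eval (-τ)| := by
      have h3 : aeval ((-τ : ℝ) : ℂ) (P l) = (((P l).eval (-τ) : ℝ) : ℂ) := by
        have := aeval_algebraMap_apply ℂ (-τ) (P l)
        simpa using this
      rw [h3, Complex.norm_real, Real.norm_eq_abs]
    rw [h3]
    exact pow_le_pow_left₀ (norm_nonneg _) (disc h (hP l hl') hl' hz) 2
  obtain ⟨R, hR1, hR2, hR3⟩ := repro h P hP (-τ) n le_rfl
  have h4 := hK R hR1
  rw [hR2, hR3] at h4
  have h5 : 0 < SS g M P n ((-τ : ℝ) : ℂ) := by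
    have h6 : P 0 = 1 := eq_one_of_monic_natDegree_zero (hP 0 (Nat.zero_le _)).1 (hP 0 (Nat.zero_le _)).2.1
    have h7 : 0 < ‖aeval ((-τ : ℝ) : ℂ) (P 0)‖ ^ 2 / Lam g M (P 0 * P 0) := by
      have := hpos 0 (Nat.zero_le _)
      refine div_pos ?_ this
      rw [h6, map_one, norm_one]
      norm_num
    refine h7.trans_le (single_le_sum (f := fun l => ‖aeval ((-τ : ℝ) : ℂ) (P l)‖ ^ 2 / Lam g M (P l * P l))
      (fun l _ => div_nonneg (sq_nonneg _) (lam_nonneg h _)) (mem_range.2 (Nat.succ_pos n)))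
  have h6 : SS g M P n ((-τ : ℝ) : ℂ) ≤ K := by
    have h7 : SS g M P n ((-τ : ℝ) : ℂ) * SS g M P n ((-τ : ℝ) : ℂ) ≤ K * SS g M P n ((-τ : ℝ) : ℂ) := by
      rw [← sq]; exact h4
    exact le_of_mul_le_mul_right h7 h5
  calc ‖aeval z q‖ ^ 2 ≤ Lam g M (q * q) * SS g M P n z := h1
    _ ≤ Lam g M (q * q) * K := mul_le_mul_of_nonneg_left (h2.trans h6) (lam_nonneg h q)
    _ = K * Lam g M (q * q) := mul_comm _ _

end Pool.Agent.Q261.EX
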